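import Mathlib
import Pool.Agent.Q195.PropS.LOne
import Pool.Agent.Q195.PropS.Bidual

/-!
# Uniform property (S) does not pass to the bidual

`L_1[0,1]` has the uniform property (S), but its bidual `(L_∞[0,1])*` contains atoms (limits along
ultrafilters of conull sets) and fails it: if `e₁`, `e₂` are two such atoms, then
`x = (1/2 + d/4) e₁ + (1/2 - d/4) e₂` and `y = (1/2 - d/4) e₁ + (1/2 + d/4) e₂` satisfy
`‖x + z‖ = ‖y + z‖` for all `‖z‖ ≤ 1/2 - d/4`.
-/

set_option autoImplicit false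

open MeasureTheory Set Filter
open Q195.PropS

namespace Pool.Agent.Results.MP_973dba_an.BidualFails

/-- The real Banach space `L_1[0,1]`. -/
abbrev LOne : Type := Lp ℝ 1 ((volume : Measure ℝ).restrict (Icc (0 : ℝ) 1))

/-- The bidual of a real normed space. -/
abbrev Bidual (X : Type) [NormedAddCommGroup X] [NormedSpace ℝ X] : Type :=
  StrongDual ℝ (StrongDual ℝ X)

theorem modulus_zero (d a : ℝ) (hd : 0 < d) (hd2 : d < 2) (ha : a ≤ 1 / 2 - d / 4) :
    modulus (Bidual LOne) d a = 0 := by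
  have h1 : (mu01.restrict (Iic (1 / 2 : ℝ))) ≠ 0 := by
    rw [Ne, Measure.restrict_eq_zero, Measure.restrict_apply measurableSet_Iic]
    have : Iic (1 / 2 : ℝ) ∩ Icc 0 1 = Icc 0 (1 / 2) := by
      ext t
      simp only [mem_inter_iff, mem_Iic, mem_Icc]
      constructor
      · rintro ⟨h1, h2, h3⟩
        exact ⟨h2, h1⟩
      · rintro ⟨h1, h2⟩
        exact ⟨h2, h1, by linarith⟩
    rw [this, Real.volume_Icc]
    simp
  have h2 : (mu01.restrict (Iic (1 / 2 : ℝ))ᶜ) ≠ 0 := by
    rw [Ne, Measure.restrict_eq_zero, Measure.restrict_apply measurableSet_Iic.compl]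
    have : (Iic (1 / 2 : ℝ))ᶜ ∩ Icc 0 1 = Ioc (1 / 2) 1 := by
      ext t
      simp only [mem_inter_iff, mem_compl_iff, mem_Iic, mem_Icc, mem_Ioc, not_le]
      constructor
      · rintro ⟨h1, h2, h3⟩
        exact ⟨h1, h3⟩
      · rintro ⟨h1, h2⟩
        exact ⟨h1, by linarith, h2⟩
    rw [this, Real.volume_Ioc]
    norm_num
  have := ae_neBot.2 h1
  have := ae_neBot.2 h2
  set u : Ultrafilter ℝ := Ultrafilter.of (ae (mu01.restrict (Iic (1 / 2 : ℝ)))) with hu
  set v : Ultrafilter ℝ := Ultrafilter.of (ae (mu01.restrict (Iic (1 / 2 : ℝ))ᶜ)) with hv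
  have hu1 : (u : Filter ℝ) ≤ ae (mu01.restrict (Iic (1 / 2 : ℝ))) := Ultrafilter.of_le _
  have hv1 : (v : Filter ℝ) ≤ ae (mu01.restrict (Iic (1 / 2 : ℝ))ᶜ) := Ultrafilter.of_le _
  have huS : Iic (1 / 2 : ℝ) ∈ u := hu1 (self_mem_ae_restrict measurableSet_Iic)
  have hvS : (Iic (1 / 2 : ℝ))ᶜ ∈ v := hv1 (self_mem_ae_restrict measurableSet_Iic.compl)
  exact modulus_bidual_eq_zero mu01 u v (hu1.trans (ae_mono Measure.restrict_le_self))
    (hv1.trans (ae_mono Measure.restrict_le_self)) (Iic (1 / 2)) measurableSet_Iic huS hvS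
    d a hd hd2 ha

/-- `L_1[0,1]` has the uniform property (S), but `U(d; a) = 0` in its bidual for all `0 < d < 2`
and `a ≤ 1/2 - d/4`. In particular, the uniform property (S) does not pass from a Banach space to
its bidual. -/
theorem result :
    UniformS LOne ∧
    (∀ d a : ℝ, 0 < d → d < 2 → a ≤ 1 / 2 - d / 4 → modulus (Bidual LOne) d a = 0) ∧
    ¬ ∀ (X : Type) [NormedAddCommGroup X] [NormedSpace ℝ X] [CompleteSpace X],
        UniformS X → UniformS (Bidual X) := by
  refine ⟨uniformS_lone, fun d a h1 h2 h3 => modulus_zero d a h1 h2 h3, fun h => ?_⟩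
  have h1 := h LOne uniformS_lone 1 (1 / 4) (by norm_num) (by norm_num) (by norm_num)
  rw [modulus_zero 1 (1 / 4) (by norm_num) (by norm_num) (by norm_num)] at h1
  exact lt_irrefl _ h1

end Pool.Agent.Results.MP_973dba_an.BidualFails
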